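import Pool.Agent.Helper90.PC.LabelsFollow
import Pool.Agent.Helper40.PC.SurvivePath
import Pool.Agent.Helper9.PC.SecondMoment

/-!
# Blocks C7d (`keys_card`) and C7e (`cond_survive`) for MP_cf7fa9_pr
-/

namespace Pool.Agent.Helper55.PC

open Finset Filter
open scoped Topology ENNReal Classical

namespace C7c

lemma pv_isTest {L : ℕ} {x : ℤ} {w : ℕ → Slot} {s : ℕ} (h : pv L x w s ≠ 0) :
    isTest L (cur w (pv L x w s) - x) := by
  induction s with
  | zero => exact absurd rfl h
  | succ s ih =>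
    rw [pv_succ] at h ⊢
    split_ifs at h ⊢ with h1
    · exact h1
    · exact ih h

section
variable {k r L : ℕ} [NeZero k] [NeZero L]

lemma blk_cast_inv {X : ℕ} {c : ℤ} {j : ZMod k} {v : Fin r}
    (h : ((c : ℤ) : Site k L) = blk k r L (X : Site k L) j v) :
    ∃ J : ℤ, (J : ZMod k) = j ∧ c - X = J * (12 * L) + v := by
  unfold blk at h
  have h1 : ((c : ℤ) : Site k L) = ((X + (j.val * (12 * L) + v : ℕ) : ℤ) : Site k L) := by
    rw [h]; push_cast; ring
  rw [ZMod.intCast_eq_intCast_iff_dvd_sub] at h1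
  obtain ⟨m, hm⟩ := h1
  refine ⟨j.val - k * m, ?_, ?_⟩
  · push_cast
    rw [ZMod.natCast_zmod_val, CharP.cast_eq_zero]
    ring
  · push_cast at hm ⊢
    linarith

lemma X0_spec {r L X : ℕ} (hr : 1 ≤ r) (h : X ∈ X0 r L) :
    ∃ i, X = L + r * i ∧ L + r * i + r ≤ 2 * L := by
  unfold X0 at h
  rw [mem_image] at h
  obtain ⟨i, hi, rfl⟩ := h
  rw [mem_range] at hi
  refine ⟨i, rfl, ?_⟩
  have h1 : r * (i + 1) ≤ r * (L / r) := Nat.mul_le_mul_left r hi
  have h2 : r * (L / r) ≤ L := Nat.mul_div_le L r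
  have h3 : r * (i + 1) = r * i + r := by ring
  omega

lemma blk_inj_X (hr : 1 ≤ r) {X X' : ℕ} (hX : X ∈ X0 r L) (hX' : X' ∈ X0 r L)
    {j j' : ZMod k} {v v' : Fin r}
    (h : blk k r L (X : Site k L) j v = blk k r L (X' : Site k L) j' v') : X = X' := by
  obtain ⟨i, rfl, hi⟩ := X0_spec hr hX
  obtain ⟨i', rfl, hi'⟩ := X0_spec hr hX'
  have hL := L_pos (L := L)
  unfold blk at h
  have hv := v.isLt
  have hv' := v'.isLt
  have hlt : ∀ (j : ZMod k) (y : ℕ), y < 2 * L → y + j.val * (12 * L) < k * (12 * L) := by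
    intro j y hy
    have hj : j.val + 1 ≤ k := ZMod.val_lt j
    have := Nat.mul_le_mul_right (12 * L) hj
    have h2 : (j.val + 1) * (12 * L) = j.val * (12 * L) + 12 * L := by ring
    omega
  have h1 : (((L + r * i + v) + j.val * (12 * L) : ℕ) : Site k L) =
      (((L + r * i' + v') + j'.val * (12 * L) : ℕ) : Site k L) := by
    push_cast at h ⊢
    linear_combination h
  rw [ZMod.natCast_eq_natCast_iff', Nat.mod_eq_of_lt (hlt j _ (by omega)),
    Nat.mod_eq_of_lt (hlt j' _ (by omega))] at h1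
  have e1 : ((L + r * i + v) + j.val * (12 * L)) % (12 * L) = L + r * i + v := by
    rw [Nat.add_mul_mod_self_right, Nat.mod_eq_of_lt (by omega)]
  have e2 : ((L + r * i' + v') + j'.val * (12 * L)) % (12 * L) = L + r * i' + v' := by
    rw [Nat.add_mul_mod_self_right, Nat.mod_eq_of_lt (by omega)]
  have e3 : L + r * i + v = L + r * i' + v' := by rw [← e1, ← e2, h1]
  have e4 : r * i + v = r * i' + v' := by omega
  have e5 : i = i' := by
    have h2 : (r * i + v) / r = i := by
      rw [Nat.mul_add_div (by omega), Nat.div_eq_of_lt hv, add_zero]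
    have h3 : (r * i' + v') / r = i' := by
      rw [Nat.mul_add_div (by omega), Nat.div_eq_of_lt hv', add_zero]
    rw [← h2, ← h3, e4]
  rw [e5]

end

end C7c

open C7c

section
variable {k r L : ℕ} [NeZero k] [NeZero L]

theorem keys_card {t n0 : ℕ} (hr : 1 ≤ r) (hrL : r ≤ L) (w : ℕ → Slot) (X : ℕ)
    (hm : MarksOK L n0 t w) : (keys k r L t w X).card ≤ k * r * (n0 + 1) := by
  obtain ⟨Mk, hMk, hmark⟩ := hm
  have hL := L_pos (L := L)
  have hsub : keys k r L t w X ⊆
      ((univ : Finset (ZMod k × Fin r)).image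
        (fun a => blk k r L (X : Site k L) a.1 a.2)) ×ˢ
      (insert 0 (Mk.image (pv L X w))) := by
    intro γ hγ
    obtain ⟨s, hs, h2, ⟨j, v, hjv⟩, rfl⟩ := mem_keys.1 hγ
    rw [mem_product]
    refine ⟨mem_image.2 ⟨(j, v), mem_univ _, hjv.symm⟩, ?_⟩
    by_cases h0 : pv L X w s = 0
    · simp [h0]
    rw [mem_insert]
    right
    rw [mem_image]
    obtain ⟨J, hJ⟩ := pv_isTest h0
    obtain ⟨J', _, hJ'⟩ := blk_cast_inv hjv
    have hle := pv_le L X w s
    set n := pv L (X : ℤ) w s with hn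
    have hv : (v : ℤ) < L := by
      have := v.isLt
      have : (v : ℕ) < L := by omega
      exact_mod_cast this
    have hv0 : (0 : ℤ) ≤ (v : ℕ) := by positivity
    have hL' : (0 : ℤ) < L := by exact_mod_cast hL
    have hdist : 2 * (L : ℤ) ≤ |cur w s - cur w n| := by
      have h3 : cur w s - cur w n = (J' - J) * (12 * L) + v - 4 * L ∨
          cur w s - cur w n = (J' - J) * (12 * L) + v - 8 * L := by
        rcases hJ with h | h
        · left; linarith
        · right; linarith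
      rcases lt_trichotomy J' J with h4 | h4 | h4
      · have h5 : (J' - J) * (12 * L) ≤ -(12 * L) := by nlinarith
        rw [abs_of_nonpos (by rcases h3 with h | h <;> linarith)]
        rcases h3 with h | h <;> linarith
      · subst h4
        rw [abs_of_nonpos (by rcases h3 with h | h <;> linarith)]
        rcases h3 with h | h <;> linarith
      · have h5 : 12 * L ≤ (J' - J) * (12 * L) := by nlinarith
        rw [abs_of_nonneg (by rcases h3 with h | h <;> linarith)]
        rcases h3 with h | h <;> linarith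
    have hns : n < s := by
      rcases hle.lt_or_eq with h | h
      · exact h
      · exfalso
        rw [h] at hdist
        simp at hdist
        omega
    obtain ⟨m, hmM, hm1, hm2⟩ := hmark n s hns hs.le hdist
    exact ⟨m, hmM, pv_const (by rw [← hn]; exact hm1.le) hm2⟩
  calc (keys k r L t w X).card ≤ _ := card_le_card hsub
    _ = ((univ : Finset (ZMod k × Fin r)).image
        (fun a => blk k r L (X : Site k L) a.1 a.2)).card *
        (insert 0 (Mk.image (pv L X w))).card := card_product _ _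
    _ ≤ (k * r) * (n0 + 1) := by
        gcongr
        · refine card_image_le.trans ?_
          rw [card_univ, Fintype.card_prod, ZMod.card, Fintype.card_fin]
        · refine (card_insert_le _ _).trans ?_
          have := card_image_le (s := Mk) (f := pv L X w)
          omega

theorem cond_survive {t n0 : ℕ} (hk : 3 ≤ k) (hr : 1 ≤ r) (hrL : r ≤ L) (hkr : k + 4 ≤ 2 ^ r)
    (w : ℕ → Slot) (hleg : Legs ((k + 4) * (12 * L)) ((2 ^ r - 1 - k - 2) * (12 * L)) t w)
    (hm : MarksOK L n0 t w) (Xs : Finset ℕ) (hXs : Xs ⊆ X0 r L) (hne : Xs.Nonempty)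
    (hserved : ∀ X ∈ Xs, ∀ (j : ZMod k) (i : Fin r),
      Served1 patE (0 : Site k L) (blk k r L (X : Site k L) j i) L t w) :
    ((univ.filter (fun η : Fin t → Bool =>
      (((X0 r L).filter (fun X => ∃ f : Lbl k r, NB ((X : ℕ) : Site k L) f t (rs 2 (extB η) w))).card
        : ℝ) < Xs.card / (2 * 2 ^ (k * r * (n0 + 1))))).card : ℝ) ≤
      2 ^ t * (4 * 2 ^ (k * r * (n0 + 1)) / Xs.card) := by
  have hL := L_pos (L := L)
  -- the data of every base point
  have hdata : ∀ X : ℕ, ∃ (f : Lbl k r) (τ : Site k L × ℕ → ZMod 2), X ∈ Xs → ∀ η : ℕ → Bool,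
      (∀ γ ∈ keys k r L t w X, ∑ s ∈ (range t).filter (fun s => (w s).1 = 2 ∧
        ((cur w s : ℤ) : Site k L) = γ.1 ∧ pv L (X : ℤ) w s = γ.2), bt (η s) = τ γ) →
      NB (X : Site k L) f t (rs 2 η w) := by
    intro X
    by_cases hX : X ∈ Xs
    · obtain ⟨i, hi1, hi2⟩ := X0_spec hr (hXs hX)
      have hX1 : L ≤ X := by omega
      have hX2 : X < 2 * L := by omega
      obtain ⟨Lab, h1, h2, h3⟩ := survive_path (k := k) (L := L) (M := 2 ^ r - 1) (t := t)
        (by omega) (by omega) w (X : ℤ) (by exact_mod_cast hX1) (by exact_mod_cast hX2) hleg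
      obtain ⟨f, τ, hf⟩ := labels_follow hk hr hrL w X hX1 hX2 Lab
        (fun s j => by have := h1 s j; have : 0 < 2 ^ r := by positivity
                       omega) h2 h3 (hserved X hX)
      exact ⟨f, τ, fun _ => hf⟩
    · exact ⟨0, 0, fun h => absurd h hX⟩
  choose f τ hfτ using hdata
  -- the base point of a site
  have hbase : ∀ y : Site k L, ∃ X0' : ℕ, ∀ X ∈ Xs, (∃ j v, y = blk k r L (X : Site k L) j v) →
      X0' = X := by
    intro y
    by_cases h : ∃ X ∈ Xs, ∃ j v, y = blk k r L (X : Site k L) j v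
    · obtain ⟨X, hX, j, v, hy⟩ := h
      refine ⟨X, ?_⟩
      rintro X' hX' ⟨j', v', hy'⟩
      exact blk_inj_X hr (hXs hX) (hXs hX') (hy.symm.trans hy')
    · exact ⟨0, fun X hX h' => absurd ⟨X, hX, h'⟩ h⟩
  choose base hbase using hbase
  have key := second_moment t ((range t).filter (fun s => (w s).1 = 2)) (filter_subset _ _)
    (fun s => (((cur w s : ℤ) : Site k L), pv L (base ((cur w s : ℤ) : Site k L) : ℤ) w s))
    Xs hne (fun X => keys k r L t w X) (k * r * (n0 + 1))
    (fun X _ => keys_card hr hrL w X hm)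
    (by
      intro X hX X' hX' hne'
      rw [disjoint_left]
      intro γ hγ hγ'
      obtain ⟨s, _, _, ⟨j, v, hjv⟩, h⟩ := mem_keys.1 hγ
      obtain ⟨s', _, _, ⟨j', v', hjv'⟩, h'⟩ := mem_keys.1 hγ'
      have e : γ.1 = blk k r L (X : Site k L) j v := by rw [← h, ← hjv]
      have e' : γ.1 = blk k r L (X' : Site k L) j' v' := by rw [← h', ← hjv']
      exact hne' (blk_inj_X hr (hXs hX) (hXs hX') (e.symm.trans e')))
    (by
      intro X hX γ hγ
      obtain ⟨s, hs, h2, ⟨j, v, hjv⟩, h⟩ := mem_keys.1 hγ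
      refine ⟨s, by simp [hs, h2], ?_⟩
      rw [← h, hbase _ X hX ⟨j, v, hjv⟩])
    (fun γ => τ (base γ.1) γ)
  refine le_trans ?_ key
  refine Nat.cast_le.2 (card_le_card fun η hη => ?_)
  rw [mem_filter] at hη ⊢
  refine ⟨hη.1, lt_of_le_of_lt (Nat.cast_le.2 (card_le_card fun X hX => ?_)) hη.2⟩
  rw [mem_filter] at hX ⊢
  obtain ⟨hX, hI⟩ := hX
  refine ⟨hXs hX, f X, hfτ X hX _ ?_⟩
  intro γ hγ
  obtain ⟨s0, _, _, ⟨j, v, hjv⟩, h⟩ := mem_keys.1 hγ
  have e : γ.1 = blk k r L (X : Site k L) j v := by rw [← h, ← hjv]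
  have hb : base γ.1 = X := hbase _ X hX ⟨j, v, e⟩
  have h1 := hI γ hγ
  simp only [hb] at h1
  rw [← h1]
  refine sum_congr ?_ fun _ _ => rfl
  ext s
  simp only [mem_filter, and_assoc]
  constructor
  · rintro ⟨h0, h2, h3, h4⟩
    refine ⟨h0, h2, ?_⟩
    rw [h3, hb, h4]
  · rintro ⟨h0, h2, h3⟩
    have h4 : ((cur w s : ℤ) : Site k L) = γ.1 := by rw [← h3]
    refine ⟨h0, h2, h4, ?_⟩
    rw [← h3, h4, hb]

end

end Pool.Agent.Helper55.PC
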