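import Pool.Agent.Helper55.PC.Base
import Pool.Agent.Helper55.PC.GraphDefs

/-!
# Block B15 (`walk_graph`, `trel_le`) for MP_cf7fa9_pr
-/

namespace Pool.Agent.Helper55.PC

open Finset Filter
open scoped Topology ENNReal

namespace B15

open Classical in
/-- one-step kernel as an average over slots -/
lemma lazyP_eq {S : Type} [Fintype S] (mvs : Fin 7 → S → S) (hne : ∀ i x, mvs i x ≠ x)
    (hinj : ∀ x, Function.Injective (fun i => mvs i x)) (G : SimpleGraph S)
    (hadj : ∀ x y, G.Adj x y ↔ ∃ i, mvs i x = y) (hdeg : ∀ x, deg G x = 7) (x y : S) :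
    lazyP G x y =
      (∑ a : Slot, if (if a.2 then mvs a.1 x else x) = y then (1 : ℝ) else 0) / 14 := by
  have hsum : (∑ a : Slot, if (if a.2 then mvs a.1 x else x) = y then (1 : ℝ) else 0) =
      (∑ i : Fin 7, if mvs i x = y then (1 : ℝ) else 0) + 7 * (if x = y then (1 : ℝ) else 0) := by
    rw [Fintype.sum_prod_type]
    simp only [Fintype.sum_bool, if_true]
    rw [Finset.sum_add_distrib]
    congr 1
    simp
  rw [hsum]
  unfold lazyP
  rw [Matrix.of_apply]
  by_cases hxy : x = y
  · subst hxy
    have : ∀ i : Fin 7, (if mvs i x = x then (1 : ℝ) else 0) = 0 := fun i => by simp [hne i x]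
    simp only [this, if_true, Finset.sum_const_zero]
    norm_num
  · simp only [hxy, if_false]
    by_cases ha : G.Adj x y
    · obtain ⟨i0, hi0⟩ := (hadj x y).1 ha
      have h1 : (∑ i : Fin 7, if mvs i x = y then (1 : ℝ) else 0) = 1 := by
        rw [Finset.sum_eq_single i0]
        · simp [hi0]
        · intro i _ hi
          rw [if_neg]
          intro h2
          exact hi (hinj x (by simp only [h2, hi0]))
        · intro h; exact absurd (Finset.mem_univ _) h
      rw [if_pos ha, h1, hdeg x]
      norm_num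
    · rw [if_neg ha]
      have h1 : ∀ i : Fin 7, (if mvs i x = y then (1 : ℝ) else 0) = 0 := by
        intro i
        rw [if_neg]
        intro h2
        exact ha ((hadj x y).2 ⟨i, h2⟩)
      simp [h1]

open Classical in
lemma avg_eq {S : Type} [Fintype S] (mvs : Fin 7 → S → S) (hne : ∀ i x, mvs i x ≠ x)
    (hinj : ∀ x, Function.Injective (fun i => mvs i x)) (G : SimpleGraph S)
    (hadj : ∀ x y, G.Adj x y ↔ ∃ i, mvs i x = y) (hdeg : ∀ x, deg G x = 7) (x : S) (f : S → ℝ) :
    (∑ a : Slot, f (if a.2 then mvs a.1 x else x)) / 14 = ∑ y, lazyP G x y * f y := by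
  simp only [lazyP_eq mvs hne hinj G hadj hdeg, div_mul_eq_mul_div]
  rw [← Finset.sum_div]
  congr 1
  simp only [Finset.sum_mul]
  rw [Finset.sum_comm]
  refine Finset.sum_congr rfl fun a _ => ?_
  simp

lemma statDist_eq {V : Type} [Fintype V] (G : SimpleGraph V) (hreg : ∀ x, deg G x = 7) (x : V) :
    statDist G x = 1 / (Fintype.card V : ℝ) := by
  unfold statDist
  simp only [hreg, Finset.sum_const, Finset.card_univ, nsmul_eq_mul]
  have : (Fintype.card V : ℝ) ≠ 0 := by
    have : 0 < Fintype.card V := Fintype.card_pos_iff.2 ⟨x⟩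
    positivity
  field_simp

end B15

open B15

theorem walk_graph {S : Type} [Fintype S] (mvs : Fin 7 → S → S)
    (hinv : ∀ i, ∃ j, ∀ x, mvs j (mvs i x) = x) (hne : ∀ i x, mvs i x ≠ x)
    (hinj : ∀ x, Function.Injective (fun i => mvs i x))
    (htrans : ∀ x y, ∃ φ : S → S, Function.Injective φ ∧ (∀ i z, φ (mvs i z) = mvs i (φ z)) ∧
      φ x = y) :
    ∃ G : SimpleGraph S, (∀ x y, G.Adj x y ↔ ∃ i, mvs i x = y) ∧ VertexTransitive G ∧
      (∀ x, deg G x = 7) ∧
      (∀ t x, tvAt G t x = (1 / 2) * ∑ y, |Pr t (fun w =>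
        run (fun a z => if a.2 then mvs a.1 z else z) x w t = y) - 1 / (Fintype.card S : ℝ)|) ∧
      (∀ (lam : ℝ) (f : S → ℝ), (∀ x, ∑ y, lazyP G x y * f y = lam * f x) → ∀ t x,
        Ex t (fun w => f (run (fun a z => if a.2 then mvs a.1 z else z) x w t)) =
          lam ^ t * f x) := by
  classical
  let G : SimpleGraph S :=
    { Adj := fun x y => ∃ i, mvs i x = y
      symm := ⟨by
        rintro x y ⟨i, rfl⟩
        obtain ⟨j, hj⟩ := hinv i
        exact ⟨j, hj x⟩⟩
      loopless := ⟨fun x ⟨i, hi⟩ => hne i x hi⟩ }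
  have hadj : ∀ x y, G.Adj x y ↔ ∃ i, mvs i x = y := fun x y => Iff.rfl
  have hdeg : ∀ x, deg G x = 7 := by
    intro x
    unfold deg
    have : G.neighborSet x = Set.range (fun i => mvs i x) := by
      ext y
      simp only [SimpleGraph.mem_neighborSet, hadj, Set.mem_range]
    rw [this, ← Set.image_univ, Set.ncard_image_of_injective _ (hinj x), Set.ncard_univ]
    simp
  refine ⟨G, hadj, ?_, hdeg, ?_, ?_⟩
  · intro x y
    obtain ⟨φ, hφ, hc, hxy⟩ := htrans x y
    have hbij : Function.Bijective φ := Finite.injective_iff_bijective.1 hφ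
    refine ⟨⟨Equiv.ofBijective φ hbij, ?_⟩, hxy⟩
    intro a b
    show G.Adj (φ a) (φ b) ↔ G.Adj a b
    rw [hadj, hadj]
    constructor
    · rintro ⟨i, hi⟩
      exact ⟨i, hφ (by rw [hc, hi])⟩
    · rintro ⟨i, hi⟩
      exact ⟨i, by rw [← hc, hi]⟩
  · intro t x
    have hpow : ∀ t y, (lazyP G ^ t) x y = Pr t (fun w =>
        run (fun a z => if a.2 then mvs a.1 z else z) x w t = y) := by
      intro t
      induction t with
      | zero =>
        intro y
        rw [pow_zero]
        unfold Pr
        rw [Ex_zero]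
        rw [Matrix.one_apply]
        by_cases h : x = y
        · rw [if_pos h]
          exact (if_pos (c := run (fun a z => if a.2 then mvs a.1 z else z) x
            (fun _ => (0, false)) 0 = y) h).symm
        · rw [if_neg h]
          exact (if_neg (c := run (fun a z => if a.2 then mvs a.1 z else z) x
            (fun _ => (0, false)) 0 = y) h).symm
      | succ t ih =>
        intro y
        rw [pow_succ, Matrix.mul_apply]
        unfold Pr
        rw [Ex_succ]
        simp only [run_update]
        have h1 : ∀ w : ℕ → Slot, (∑ a : Slot, if (if a.2 = true then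
            mvs a.1 (run (fun a z => if a.2 then mvs a.1 z else z) x w t) else
            run (fun a z => if a.2 then mvs a.1 z else z) x w t) = y then (1 : ℝ) else 0) / 14 =
            ∑ z, (if run (fun a z => if a.2 then mvs a.1 z else z) x w t = z then (1 : ℝ) else 0)
              * lazyP G z y := by
          intro w
          rw [← lazyP_eq mvs hne hinj G hadj hdeg]
          simp
        simp only [h1]
        rw [Ex_sum]
        refine Finset.sum_congr rfl fun z _ => ?_
        rw [Ex_mul_right, ih z]
        rfl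
    unfold tvAt tvDist
    simp only [hpow, statDist_eq G hdeg]
  · intro lam f hf t x
    induction t with
    | zero => rw [Ex_zero]; simp [run]
    | succ t ih =>
      rw [Ex_succ]
      simp only [run_update]
      have h1 : ∀ w : ℕ → Slot, (∑ a : Slot, f (if a.2 = true then
            mvs a.1 (run (fun a z => if a.2 then mvs a.1 z else z) x w t) else
            run (fun a z => if a.2 then mvs a.1 z else z) x w t)) / 14 =
            lam * f (run (fun a z => if a.2 then mvs a.1 z else z) x w t) := by
        intro w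
        rw [avg_eq mvs hne hinj G hadj hdeg, hf]
      simp only [h1]
      rw [Ex_mul_left, ih]
      ring

/-- bound on the relaxation time from a bound on all eigenvalues on `1^⊥`. -/
theorem trel_le {V : Type} [Fintype V] (G : SimpleGraph V) (hreg : ∀ x, deg G x = 7) (T : ℝ)
    (hT : 1 ≤ T)
    (h : ∀ (lam : ℝ) (f : V → ℝ), f ≠ 0 → ∑ x, f x = 0 →
      (∀ x, ∑ y, lazyP G x y * f y = lam * f x) → lam ≤ 1 - 1 / T) : |trel G| ≤ T := by
  have hT0 : 0 < T := by linarith
  unfold trel lambda2
  set A : Set ℝ := {lam : ℝ | ∃ f : V → ℝ, f ≠ 0 ∧ ∑ x, statDist G x * f x = 0 ∧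
    ∀ x, ∑ y, lazyP G x y * f y = lam * f x} with hA
  rcases A.eq_empty_or_nonempty with h0 | h0
  · rw [h0, Real.sSup_empty]
    simpa using hT
  · have hle : sSup A ≤ 1 - 1 / T := by
      refine csSup_le h0 ?_
      rintro lam ⟨f, hf0, hf1, hf2⟩
      refine h lam f hf0 ?_ hf2
      simp only [statDist_eq G hreg] at hf1
      rw [← Finset.mul_sum] at hf1
      rcases mul_eq_zero.1 hf1 with h3 | h3
      · exfalso
        obtain ⟨x, _⟩ := Function.ne_iff.1 hf0
        have : 0 < Fintype.card V := Fintype.card_pos_iff.2 ⟨x⟩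
        have : (0 : ℝ) < 1 / (Fintype.card V : ℝ) := by positivity
        linarith
      · exact h3
    have h1 : 1 / T ≤ 1 - sSup A := by linarith
    have h2 : 0 < 1 / T := by positivity
    have h3 : 0 < 1 - sSup A := by linarith
    rw [abs_of_pos (by positivity)]
    rw [div_le_iff₀ h3]
    have := mul_le_mul_of_nonneg_left h1 hT0.le
    rw [mul_one_div_cancel hT0.ne'] at this
    exact this

end Pool.Agent.Helper55.PC
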