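import Pool.Agent.Helper55.PC.Events

/-!
# Block C7c (`labels_follow`) for MP_cf7fa9_pr
-/

namespace Pool.Agent.Helper55.PC

open Finset Filter
open scoped Topology ENNReal Classical

namespace C7c

/-! ### integer paths -/

lemma cur_step (w : ℕ → Slot) (s : ℕ) : |cur w (s + 1) - cur w s| ≤ 1 := by
  rw [cur_succ, add_sub_cancel_left]
  exact abs_mv_le _

lemma ivt_up (D : ℕ → ℤ) (h : ∀ s, |D (s + 1) - D s| ≤ 1) {a b : ℕ} (hab : a ≤ b) {y : ℤ}
    (h1 : D a ≤ y) (h2 : y ≤ D b) : ∃ s, a ≤ s ∧ s ≤ b ∧ D s = y := by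
  induction b, hab using Nat.le_induction with
  | base => exact ⟨a, le_rfl, le_rfl, le_antisymm h1 h2⟩
  | succ b hb ih =>
    by_cases h3 : y ≤ D b
    · obtain ⟨s, hs1, hs2, hs3⟩ := ih h3
      exact ⟨s, hs1, by omega, hs3⟩
    · refine ⟨b + 1, by omega, le_rfl, ?_⟩
      have := abs_le.1 (h b)
      omega

lemma ivt_down (D : ℕ → ℤ) (h : ∀ s, |D (s + 1) - D s| ≤ 1) {a b : ℕ} (hab : a ≤ b) {y : ℤ}
    (h1 : y ≤ D a) (h2 : D b ≤ y) : ∃ s, a ≤ s ∧ s ≤ b ∧ D s = y := by
  obtain ⟨s, h3, h4, h5⟩ := ivt_up (fun s => - D s)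
    (fun s => by rw [show -D (s + 1) - -D s = -(D (s + 1) - D s) by ring, abs_neg]; exact h s)
    hab (y := -y) (by simpa using h1) (by simpa using h2)
  exact ⟨s, h3, h4, by simpa using h5⟩

/-! ### the last visit -/

lemma pv_succ (L : ℕ) (x : ℤ) (w : ℕ → Slot) (s : ℕ) :
    pv L x w (s + 1) = if isTest L (cur w (s + 1) - x) then s + 1 else pv L x w s := rfl

lemma pv_le (L : ℕ) (x : ℤ) (w : ℕ → Slot) (s : ℕ) : pv L x w s ≤ s := by
  induction s with
  | zero => exact le_rfl
  | succ s ih =>
    rw [pv_succ]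
    split_ifs
    · exact le_rfl
    · omega

lemma pv_const {L : ℕ} {x : ℤ} {w : ℕ → Slot} {s s' : ℕ} (h1 : pv L x w s ≤ s') (h2 : s' ≤ s) :
    pv L x w s' = pv L x w s := by
  induction s with
  | zero => obtain rfl : s' = 0 := by omega
            rfl
  | succ s ih =>
    rw [pv_succ] at h1 ⊢
    split_ifs at h1 ⊢ with h
    · obtain rfl : s' = s + 1 := by omega
      rw [pv_succ, if_pos h]
    · by_cases h3 : s' = s + 1
      · subst h3
        rw [pv_succ, if_neg h]
      · exact ih h1 (by omega)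

lemma pv_ge {L : ℕ} {x : ℤ} {w : ℕ → Slot} {v s' : ℕ} (hv : 1 ≤ v)
    (ht : isTest L (cur w v - x)) (h : v ≤ s') : v ≤ pv L x w s' := by
  induction s', h using Nat.le_induction with
  | base =>
    obtain ⟨n, rfl⟩ : ∃ n, v = n + 1 := ⟨v - 1, by omega⟩
    rw [pv_succ, if_pos ht]
  | succ s' hs ih =>
    rw [pv_succ]
    split_ifs
    · omega
    · exact ih

/-! ### sites -/

lemma mem_keys {k r L t : ℕ} {w : ℕ → Slot} {X : ℕ} {γ : Site k L × ℕ} :
    γ ∈ keys k r L t w X ↔ ∃ s < t, (w s).1 = 2 ∧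
      (∃ (j : ZMod k) (v : Fin r), ((cur w s : ℤ) : Site k L) = blk k r L (X : Site k L) j v) ∧
      (((cur w s : ℤ) : Site k L), pv L (X : ℤ) w s) = γ := by
  unfold keys
  rw [mem_image]
  constructor
  · rintro ⟨s, hs, h⟩
    rw [mem_filter, mem_range] at hs
    exact ⟨s, hs.1, hs.2.1, hs.2.2, h⟩
  · rintro ⟨s, h1, h2, h3, h4⟩
    refine ⟨s, ?_, h4⟩
    rw [mem_filter, mem_range]
    exact ⟨h1, h2, h3⟩

section
variable {k r L : ℕ} [NeZero k] [NeZero L]

lemma L_pos : 0 < L := Nat.pos_of_ne_zero (NeZero.ne L)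

lemma k_pos : 0 < k := Nat.pos_of_ne_zero (NeZero.ne k)

lemma blk_inj (hrL : r ≤ L) {x : Site k L} {j j' : ZMod k} {i i' : Fin r}
    (h : blk k r L x j i = blk k r L x j' i') : j = j' ∧ i = i' := by
  unfold blk at h
  have h1 := add_left_cancel h
  have hlt : ∀ (j : ZMod k) (i : Fin r), j.val * (12 * L) + i < k * (12 * L) := by
    intro j i
    have hj : j.val + 1 ≤ k := ZMod.val_lt j
    have hi := i.isLt
    have := Nat.mul_le_mul_right (12 * L) hj
    have hL := L_pos (L := L)
    have h2 : (j.val + 1) * (12 * L) = j.val * (12 * L) + 12 * L := by ring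
    omega
  rw [ZMod.natCast_eq_natCast_iff', Nat.mod_eq_of_lt (hlt j i), Nat.mod_eq_of_lt (hlt j' i')] at h1
  have hL := L_pos (L := L)
  have hi := i.isLt
  have hi' := i'.isLt
  have e1 : (j.val * (12 * L) + i) / (12 * L) = j.val := by
    rw [mul_comm, Nat.mul_add_div (by omega), Nat.div_eq_of_lt (by omega), add_zero]
  have e2 : (j'.val * (12 * L) + i') / (12 * L) = j'.val := by
    rw [mul_comm, Nat.mul_add_div (by omega), Nat.div_eq_of_lt (by omega), add_zero]
  have e3 : j.val = j'.val := by rw [← e1, ← e2, h1]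
  have e4 : j = j' := ZMod.val_injective k e3
  refine ⟨e4, Fin.ext ?_⟩
  rw [e3] at h1
  omega

lemma cast_eq_of {J : ℤ} {j : ZMod k} (hJ : (J : ZMod k) = j) (d : ℤ) :
    ((J * (12 * L) + d : ℤ) : Site k L) = (((j.val : ℤ) * (12 * L) + d : ℤ) : Site k L) := by
  have h1 : ((J - j.val : ℤ) : ZMod k) = 0 := by
    push_cast
    rw [hJ, ZMod.natCast_zmod_val, sub_self]
  rw [ZMod.intCast_zmod_eq_zero_iff_dvd] at h1
  obtain ⟨m, hm⟩ := h1
  rw [ZMod.intCast_eq_intCast_iff_dvd_sub]
  refine ⟨-m, ?_⟩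
  have : J = j.val + k * m := by linarith
  rw [this]
  push_cast
  ring

lemma blk_cast (X : ℕ) {J : ℤ} {j : ZMod k} (hJ : (J : ZMod k) = j) (i : Fin r) :
    ((X + J * (12 * L) + i : ℤ) : Site k L) = blk k r L (X : Site k L) j i := by
  have h := cast_eq_of (L := L) hJ (X + i)
  unfold blk
  have e1 : (X + J * (12 * L) + i : ℤ) = J * (12 * L) + (X + i) := by ring
  rw [e1, h]
  push_cast
  ring

lemma test_cast {X : ℕ} {c : ℤ} {j : ZMod k} {i : Bool}
    (h : ((c : ℤ) : Site k L) = (X : Site k L) + tpt k L j i) :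
    ∃ J : ℤ, (J : ZMod k) = j ∧
      c - X = J * (12 * L) + (if i then 8 * L else 4 * L : ℕ) := by
  unfold tpt at h
  have h1 : ((c : ℤ) : Site k L) =
      ((X + (j.val * (12 * L) + (if i then 8 * L else 4 * L) : ℕ) : ℤ) : Site k L) := by
    rw [h]; push_cast; ring
  rw [ZMod.intCast_eq_intCast_iff_dvd_sub] at h1
  obtain ⟨m, hm⟩ := h1
  refine ⟨j.val - k * m, ?_, ?_⟩
  · push_cast
    rw [ZMod.natCast_zmod_val, CharP.cast_eq_zero]
    ring
  · push_cast at hm ⊢
    linarith

lemma le_dst (hk : 3 ≤ k) {d : ℤ} (h1 : (L : ℤ) ≤ |d|) (h2 : |d| ≤ 35 * L) :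
    L ≤ dst ((d : ℤ) : Site k L) := by
  have hL := L_pos (L := L)
  have hlen : (36 * L : ℤ) ≤ k * (12 * L) := by
    have : (3 : ℤ) ≤ k := by exact_mod_cast hk
    nlinarith
  have hv := ZMod.val_intCast (n := k * (12 * L)) d
  unfold dst
  have hlen' : 36 * L ≤ k * (12 * L) := by exact_mod_cast hlen
  push_cast at hv
  rcases le_or_gt 0 d with h | h
  · rw [abs_of_nonneg h] at h1 h2
    rw [Int.emod_eq_of_lt h (by omega)] at hv
    refine le_min ?_ ?_
    · omega
    · have : (((d : ℤ) : Site k L).val : ℤ) ≤ 35 * L := by rw [hv]; exact h2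
      omega
  · rw [abs_of_neg h] at h1 h2
    have e : d % (k * (12 * L)) = d + k * (12 * L) := by
      rw [← Int.add_emod_right]
      exact Int.emod_eq_of_lt (by omega) (by omega)
    rw [e] at hv
    have h3 : (((d : ℤ) : Site k L).val : ℤ) = d + (k * (12 * L) : ℕ) := by
      rw [hv]; push_cast; ring
    refine le_min ?_ ?_
    · omega
    · omega

end

/-! ### lamps -/

lemma lamp_add {ℓ : ℕ} (w : ℕ → Slot) (y : ZMod ℓ) {n v : ℕ} (h : n ≤ v) :
    lamp 0 0 w v y = lamp 0 0 w n y +
      ∑ s ∈ Ico n v, (if w s = (2, true) ∧ (0 : ZMod ℓ) + (cur w s : ZMod ℓ) = y then 1 else 0) := by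
  induction v, h using Nat.le_induction with
  | base => simp
  | succ v hv ih =>
    rw [sum_Ico_succ_top hv, ← add_assoc, ← ih]
    rfl

lemma toggle_eq {ℓ : ℕ} (w : ℕ → Slot) (η : ℕ → Bool) (y : ZMod ℓ) (s : ℕ) :
    (if rs 2 η w s = (2, true) ∧ (0 : ZMod ℓ) + (cur (rs 2 η w) s : ZMod ℓ) = y then (1 : ZMod 2)
      else 0) =
    if (w s).1 = 2 ∧ ((cur w s : ℤ) : ZMod ℓ) = y then bt (w s).2 + bt (η s) else 0 := by
  rw [cur_rs (by decide) (by decide), zero_add]
  by_cases h1 : (w s).1 = 2
  · have e : rs 2 η w s = (2, xor (w s).2 (η s)) := by simp [rs, h1]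
    rw [e, ← bt_xor]
    by_cases h2 : ((cur w s : ℤ) : ZMod ℓ) = y
    · simp only [h1, h2, and_true, if_true]
      cases xor (w s).2 (η s) <;> simp [bt]
    · simp [h2]
  · have e : rs 2 η w s = w s := rs_of_ne η h1
    rw [e, if_neg, if_neg]
    · exact fun h => h1 h.1
    · rintro ⟨h, _⟩
      exact h1 (by rw [h])

end C7c

open C7c

section
variable {k r L : ℕ} [NeZero k] [NeZero L]

theorem labels_follow {t : ℕ} (hk : 3 ≤ k) (hr : 1 ≤ r) (hrL : r ≤ L) (w : ℕ → Slot) (X : ℕ)
    (hX : L ≤ X) (hX2 : X < 2 * L) (Lab : ℕ → ZMod k → ℕ) (hM : ∀ s j, Lab s j < 2 ^ r)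
    (hgood : ∀ s ≤ t, ∀ J : ℤ, (cur w s - X = J * (12 * L) + 4 * L ∨
      cur w s - X = J * (12 * L) + 8 * L) → Lab s ((J - 1 : ℤ) : ZMod k) < Lab s (J : ZMod k))
    (hchg : ∀ s j, Lab (s + 1) j ≠ Lab s j → s < t ∧ isTest L (cur w (s + 1) - X) ∧
        ∃ J : ℤ, (J : ZMod k) = j ∧
        ((-(8 * L) ≤ cur w (pv L X w s) - X - J * (12 * L) ∧
            cur w (pv L X w s) - X - J * (12 * L) ≤ -L ∧
            cur w (s + 1) - X - J * (12 * L) = 4 * L) ∨
          (4 * L ≤ cur w (pv L X w s) - X - J * (12 * L) ∧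
            cur w (pv L X w s) - X - J * (12 * L) ≤ 8 * L ∧
            cur w (s + 1) - X - J * (12 * L) = -(4 * L))))
    (hserved : ∀ (j : ZMod k) (i : Fin r),
      Served1 patE (0 : Site k L) (blk k r L (X : Site k L) j i) L t w) :
    ∃ (f : Lbl k r) (τ : Site k L × ℕ → ZMod 2), ∀ η : ℕ → Bool,
      (∀ γ ∈ keys k r L t w X, ∑ s ∈ (range t).filter (fun s => (w s).1 = 2 ∧
        ((cur w s : ℤ) : Site k L) = γ.1 ∧ pv L (X : ℤ) w s = γ.2), bt (η s) = τ γ) →
      NB (X : Site k L) f t (rs 2 η w) := by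
  have hL := L_pos (L := L)
  -- the bits of the labels
  set B : ℕ → ZMod k → Fin r → ZMod 2 := fun s j => (code r).symm ⟨Lab s j, hM s j⟩ with hB
  have hBLab : ∀ s s' j, Lab s j = Lab s' j → B s j = B s' j := by
    intro s s' j h
    simp only [hB, h]
  -- labels are constant between visits
  have hLabpv : ∀ s j, Lab s j = Lab (pv L X w s) j := by
    intro s j
    induction s with
    | zero => rfl
    | succ s ih =>
      rw [pv_succ]
      split_ifs with h
      · rfl
      · rw [← ih]
        by_contra hne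
        exact h (hchg s j hne).2.1
  -- the prescribed parities
  have hτ : ∀ γ : Site k L × ℕ, ∃ d : ZMod 2, ∀ (s : ℕ) (j : ZMod k) (i : Fin r),
      γ.1 = blk k r L (X : Site k L) j i → γ.2 = pv L X w s → isTest L (cur w (s + 1) - X) →
      d = B (s + 1) j i - B (pv L X w s) j i := by
    intro γ
    by_cases h : ∃ (s : ℕ) (j : ZMod k) (i : Fin r), γ.1 = blk k r L (X : Site k L) j i ∧
      γ.2 = pv L X w s ∧ isTest L (cur w (s + 1) - X)
    · obtain ⟨s, j, i, h1, h2, h3⟩ := h
      refine ⟨B (s + 1) j i - B (pv L X w s) j i, ?_⟩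
      intro s' j' i' h1' h2' h3'
      obtain ⟨rfl, rfl⟩ := blk_inj hrL (h1.symm.trans h1')
      have hs : s = s' := by
        rcases lt_trichotomy s s' with h4 | h4 | h4
        · have := pv_ge (by omega) h3 (show s + 1 ≤ s' by omega)
          have := pv_le L X w s
          omega
        · exact h4
        · have := pv_ge (by omega) h3' (show s' + 1 ≤ s by omega)
          have := pv_le L X w s'
          omega
      rw [hs]
    · refine ⟨0, ?_⟩
      intro s j i h1 h2 h3
      exact absurd ⟨s, j, i, h1, h2, h3⟩ h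
  choose D hD using hτ
  refine ⟨fun j => B 0 j, fun γ => D γ - ∑ s ∈ (range t).filter (fun s => (w s).1 = 2 ∧
        ((cur w s : ℤ) : Site k L) = γ.1 ∧ pv L (X : ℤ) w s = γ.2), bt (w s).2, ?_⟩
  intro η hη
  -- lamps at visits
  have hlamp : ∀ s ≤ t, ∀ (j : ZMod k) (i : Fin r),
      lamp 0 0 (rs 2 η w) (pv L X w s) (blk k r L (X : Site k L) j i) =
        B (pv L X w s) j i - B 0 j i := by
    intro s
    induction s with
    | zero =>
      intro _ j i
      show (0 : Site k L → ZMod 2) _ = B 0 j i - B 0 j i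
      simp
    | succ s ih =>
      intro hs j i
      rw [pv_succ]
      split_ifs with htest
      swap
      · exact ih (by omega) j i
      have ih' := ih (by omega) j i
      set n := pv L X w s with hn
      have hns : n ≤ s := pv_le L X w s
      set y := blk k r L (X : Site k L) j i with hy
      rw [lamp_add (rs 2 η w) y (show n ≤ s + 1 by omega), ih']
      simp only [toggle_eq]
      -- the sum over the slots between the two visits
      have hsum : (∑ s' ∈ Ico n (s + 1), if (w s').1 = 2 ∧ ((cur w s' : ℤ) : Site k L) = y then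
          bt (w s').2 + bt (η s') else 0) =
          ∑ s' ∈ (range t).filter (fun s' => (w s').1 = 2 ∧ ((cur w s' : ℤ) : Site k L) = y ∧
            pv L (X : ℤ) w s' = n), (bt (w s').2 + bt (η s')) := by
        rw [← sum_filter]
        refine sum_congr ?_ fun _ _ => rfl
        ext s'
        simp only [mem_filter, mem_Ico, mem_range]
        constructor
        · rintro ⟨⟨h1, h2⟩, h3, h4⟩
          exact ⟨by omega, h3, h4, pv_const (by rw [← hn]; exact h1) (by omega)⟩
        · rintro ⟨h1, h2, h3, h4⟩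
          refine ⟨⟨?_, ?_⟩, h2, h3⟩
          · rw [← h4]; exact pv_le L X w s'
          · by_contra h5
            push Not at h5
            have := pv_ge (by omega) htest h5
            omega
      rw [hsum]
      by_cases hkey : (y, n) ∈ keys k r L t w X
      · have h1 := hη (y, n) hkey
        simp only at h1
        rw [sum_add_distrib, h1]
        have h2 := hD (y, n) s j i rfl rfl htest
        rw [h2]
        ring
      · -- no slot at all: then the label did not change
        have hempty : (range t).filter (fun s' => (w s').1 = 2 ∧ ((cur w s' : ℤ) : Site k L) = y ∧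
            pv L (X : ℤ) w s' = n) = ∅ := by
          rw [filter_eq_empty_iff]
          rintro s' hs' ⟨h1, h2, h3⟩
          apply hkey
          exact mem_keys.2 ⟨s', mem_range.1 hs', h1, ⟨j, i, h2⟩, by rw [h2, h3]⟩
        rw [hempty, sum_empty, add_zero]
        suffices hBB : Lab n j = Lab (s + 1) j by rw [hBLab _ _ _ hBB]
        by_contra hne
        have h1 : Lab (s + 1) j ≠ Lab s j := by
          rw [hLabpv s j]
          exact fun h => hne h.symm
        obtain ⟨_, _, J, hJ, hcase⟩ := hchg s j h1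
        have hi : (i : ℤ) < L := by
          have := i.isLt
          have : (i : ℕ) < L := by omega
          exact_mod_cast this
        have hi0 : (0 : ℤ) ≤ (i : ℕ) := by positivity
        have hyc : ((X + J * (12 * L) + i : ℤ) : Site k L) = y := blk_cast X hJ i
        have hL' : (0 : ℤ) < L := by exact_mod_cast hL
        -- passing the site
        obtain ⟨sy, hsy1, hsy2, hsy3⟩ : ∃ sy, n ≤ sy ∧ sy ≤ s + 1 ∧
            cur w sy = X + J * (12 * L) + i := by
          rcases hcase with ⟨h2, h3, h4⟩ | ⟨h2, h3, h4⟩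
          · exact ivt_up (cur w) (cur_step w) (by omega) (by linarith) (by linarith)
          · exact ivt_down (cur w) (cur_step w) (by omega) (by linarith) (by linarith)
        have hd : ∀ m : ℕ, (L : ℤ) ≤ |cur w m - (X + J * (12 * L) + i)| →
            |cur w m - (X + J * (12 * L) + i)| ≤ 35 * L →
            L ≤ dst ((0 : Site k L) + (cur w m : Site k L) - y) := by
          intro m h2 h3
          have h4 := le_dst hk h2 h3
          rw [← hyc]
          convert h4 using 2
          push_cast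
          ring
        obtain ⟨s', hs1, hs2, hs3, hs4⟩ := hserved j i n sy (s + 1) hsy1 hsy2 hs
          (hd n (by
              rcases hcase with ⟨h2, h3, h4⟩ | ⟨h2, h3, h4⟩
              · rw [abs_of_nonpos (by linarith)]; linarith
              · rw [abs_of_nonneg (by linarith)]; linarith) (by
              rcases hcase with ⟨h2, h3, h4⟩ | ⟨h2, h3, h4⟩
              · rw [abs_of_nonpos (by linarith)]; linarith
              · rw [abs_of_nonneg (by linarith)]; linarith))
          (by rw [hsy3, hyc, zero_add])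
          (hd (s + 1) (by
              rcases hcase with ⟨h2, h3, h4⟩ | ⟨h2, h3, h4⟩
              · rw [abs_of_nonneg (by linarith)]; linarith
              · rw [abs_of_nonpos (by linarith)]; linarith) (by
              rcases hcase with ⟨h2, h3, h4⟩ | ⟨h2, h3, h4⟩
              · rw [abs_of_nonneg (by linarith)]; linarith
              · rw [abs_of_nonpos (by linarith)]; linarith))
        have hs2' : s' + 1 ≤ s + 1 := hs2
        have hs5 : s' ∈ (range t).filter (fun s' => (w s').1 = 2 ∧
            ((cur w s' : ℤ) : Site k L) = y ∧ pv L (X : ℤ) w s' = n) := by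
          rw [mem_filter, mem_range]
          refine ⟨by omega, ?_, by rw [zero_add] at hs3; exact hs3,
            pv_const (by rw [← hn]; exact hs1) (by omega)⟩
          have := hs4 0 (by decide)
          simpa [patE] using this
        rw [hempty] at hs5
        exact absurd hs5 (notMem_empty _)
  -- conclusion
  intro s hs j i hsi hbad
  rw [cur_rs (by decide) (by decide)] at hsi
  obtain ⟨J, hJ, hc⟩ := test_cast hsi
  have htest : cur w s - X = J * (12 * L) + 4 * L ∨ cur w s - X = J * (12 * L) + 8 * L := by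
    cases i
    · left; rw [hc]; push_cast; simp
    · right; rw [hc]; push_cast; simp
  have hpv : pv L X w s = s := by
    cases s with
    | zero => rfl
    | succ s => rw [pv_succ, if_pos ⟨J, htest⟩]
  have hlab : labs (X : Site k L) (fun j => B 0 j) (lamp 0 0 (rs 2 η w) s) = fun j => B s j := by
    funext j' v
    unfold labs
    have h1 := hlamp s hs.le j' v
    rw [hpv] at h1
    rw [h1]
    ring
  rw [hlab] at hbad
  unfold badLbl at hbad
  simp only [hB, Equiv.apply_symm_apply, Fin.mk_le_mk] at hbad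
  have h1 := hgood s hs.le J htest
  have e : ((J - 1 : ℤ) : ZMod k) = j - 1 := by push_cast; rw [hJ]
  rw [e, hJ] at h1
  omega

end

end Pool.Agent.Helper55.PC
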